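import Pool.Agent.Helper78.JT.Goals3
import Pool.Agent.Helper61.DT.GAP

/-!
# Project JT, packet CKG: languages
-/

set_option autoImplicit false

namespace Pool.Agent.Helper55.JT

open Pool.Agent.Helper81.CC Pool.Agent.Helper51.ZP Pool.Agent.Helper78.JT Pool.Agent.Helper31.TMSim
open Pool.Agent.Helper83.CL Computability

theorem PT_lsize : PolyTime (fun f : CList => lsize f) := by
  unfold lsize
  have h1 : PolyTime (fun z : (CList × (List Clause × Bool)) × Clause => 1 + z.2.length) := by
    fun_prop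
  have h2 : PolyTime (fun z : CList × (List Clause × Bool) => z.2.1) := by fun_prop
  have h3 : PolyTime (fun z : CList × (List Clause × Bool) =>
      1 + (z.2.1.map fun C => 1 + C.length).sum) := by
    have h4 : PolyTime (fun z : CList × (List Clause × Bool) =>
        (z.2.1.map fun C => 1 + C.length).sum) :=
      PolyTime.sum (PolyTime.list_map (f := fun _ (C : Clause) => 1 + C.length) h2 h1)
    fun_prop
  have h5 : PolyTime (fun f : CList => f) := by fun_prop
  exact PolyTime.sum (PolyTime.list_map (f := fun _ (e : List Clause × Bool) =>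
    1 + (e.1.map fun C => 1 + C.length).sum) h5 h3)

theorem PT_size : PolyTime (fun z : Circuit => size z) := by
  unfold size
  have h0 : PolyTime (fun z : Circuit => z.2.1) := by fun_prop
  have h1 : PolyTime (fun w : Circuit × CList => lsize w.2) := PolyTime.comp PT_lsize (by fun_prop)
  have h2 : PolyTime (fun w : Circuit × CList => 1 + lsize w.2) := by fun_prop
  have h3 : PolyTime (fun z : Circuit => (z.2.1.map fun f => 1 + lsize f).sum) :=
    PolyTime.sum (PolyTime.list_map (f := fun _ (f : CList) => 1 + lsize f) h0 h2)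
  have h4 : PolyTime (fun z : Circuit => z.1) := by fun_prop
  have h5 : PolyTime (fun z : Circuit => z.2.2.length) := by fun_prop
  fun_prop

/-- the trivial circuit -/
def D0 (b : Bool) : Circuit := (0, [], [b])

theorem PT_D0 {f : List Bool → Bool} (hf : PolyTime f) : PolyTime fun x => D0 (f x) := by
  unfold D0
  fun_prop

theorem out_D0 (b : Bool) (r : Fin (D0 b).1 → Bool) : out (D0 b) r = b := rfl

theorem cnt_D0_true : cnt (D0 true) = 1 := by
  unfold cnt
  have e : Nat.card {r : Fin (D0 true).1 → Bool // out (D0 true) r = true} =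
      Nat.card (Fin (D0 true).1 → Bool) :=
    Nat.card_congr (Equiv.subtypeUnivEquiv fun r => out_D0 true r)
  rw [e, Nat.card_eq_fintype_card, Fintype.card_fun, Fintype.card_bool, Fintype.card_fin]
  rfl

theorem cnt_D0_false : cnt (D0 false) = 0 := by
  unfold cnt
  have : IsEmpty {r : Fin (D0 false).1 → Bool // out (D0 false) r = true} :=
    ⟨fun r => Bool.false_ne_true r.2⟩
  exact Nat.card_of_isEmpty

/-- padding of the truth table -/
def pad (z : Circuit) (m : ℕ) : Circuit := (z.1, z.2.1, z.2.2 ++ List.replicate m false)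

theorem getD_pad (T : List Bool) (m i : ℕ) :
    (T ++ List.replicate m false).getD i false = T.getD i false := by
  rcases Nat.lt_or_ge i T.length with h | h
  · rw [List.getD_append _ _ _ _ h]
  · rw [List.getD_append_right _ _ _ _ h, List.getD_eq_default _ _ h]
    rcases Nat.lt_or_ge (i - T.length) m with h2 | h2
    · rw [List.getD_eq_getElem _ _ (by simpa using h2), List.getElem_replicate]
    · rw [List.getD_eq_default _ _ (by simpa using h2)]

theorem cnt_pad (z : Circuit) (m : ℕ) : cnt (pad z m) = cnt z := by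
  unfold cnt
  refine Nat.card_congr (Equiv.subtypeEquivRight fun r => ?_)
  unfold out
  show (z.2.2 ++ List.replicate m false).getD (idx r z.2.1) false = true ↔ _
  rw [getD_pad]
  exact Iff.rfl

theorem le_size_pad (z : Circuit) (m : ℕ) : m ≤ size (pad z m) := by
  unfold size
  show m ≤ z.1 + (z.2.1.map fun f => 1 + lsize f).sum + (z.2.2 ++ List.replicate m false).length
  rw [List.length_append, List.length_replicate]
  omega

theorem size_pad (z : Circuit) (m : ℕ) : size z ≤ size (pad z m) := by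
  unfold size
  show z.1 + (z.2.1.map fun f => 1 + lsize f).sum + z.2.2.length ≤
    z.1 + (z.2.1.map fun f => 1 + lsize f).sum + (z.2.2 ++ List.replicate m false).length
  rw [List.length_append, List.length_replicate]
  omega

theorem narrow_pad {k : ℕ} {z : Circuit} (h : Narrow k z) (m : ℕ) : Narrow k (pad z m) := by
  intro f hf e he
  refine (h f hf e he).trans (Nat.mul_le_mul_left k ?_)
  exact Nat.add_le_add_right (Nat.log_mono_right (size_pad z m)) 1

theorem ckg (hC : CkfStmt) : CkgStmt := by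
  intro c k e L
  constructor
  · intro hL
    obtain ⟨f, hf, h⟩ := PT_of_inP hL
    refine ⟨fun x => D0 (f x), fun _ => 0, (PT_D0 hf).computable,
      (PolyTime.const (α := List Bool) (0 : ℕ)).computable, ?_, ?_, ?_⟩
    · intro x
      refine ⟨fun g hg => absurd hg List.not_mem_nil, ?_⟩
      show 0 ^ (e + 1) ≤ _
      rw [zero_pow (Nat.succ_ne_zero e)]
      exact Nat.zero_le _
    · intro x hx
      have hfx : f x = true := (h x).1 hx
      show (0 + 1) * 2 ^ 0 ≤ (Nat.log 2 x.length + 2) ^ c * cnt (D0 (f x))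
      rw [hfx, cnt_D0_true]
      have h1 : 1 ≤ (Nat.log 2 x.length + 2) ^ c := Nat.one_le_pow _ _ (by omega)
      simpa using h1
    · intro x hx
      have hfx : f x = false := by
        rw [← Bool.not_eq_true, ← h x]
        exact hx
      show (Nat.log 2 x.length + 2) ^ c * cnt (D0 (f x)) ≤ 0 * 2 ^ 0
      rw [hfx, cnt_D0_false]
      simp
  · rintro ⟨D, g, hD, hg, h0, h1, h2⟩
    obtain ⟨f, hf, hfa⟩ := hC (c + 2) k e
    have hDP : PolyTime D := Pool.Agent.Helper61.DT.PT_of_comp' hD
    have hgP : PolyTime g := Pool.Agent.Helper61.DT.PT_of_comp' hg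
    have hfP : PolyTime f := Pool.Agent.Helper61.DT.PT_of_comp' hf
    have hlen : PolyTime (fun x : List Bool => x.length) := by fun_prop
    have hlog : PolyTime (fun x : List Bool => Nat.log 2 x.length) :=
      Pool.Agent.Helper61.DT.PT_log hlen
    have hpad : PolyTime (fun x : List Bool => pad (D x) x.length) := by
      unfold pad
      have e1 : PolyTime (fun x : List Bool => (D x).1) := by fun_prop
      have e2 : PolyTime (fun x : List Bool => (D x).2.1) := by fun_prop
      have e3 : PolyTime (fun x : List Bool => (D x).2.2) := by fun_prop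
      have e4 : PolyTime (fun x : List Bool => List.replicate x.length false) :=
        PolyTime.replicate hlen (PolyTime.const false)
      fun_prop
    have hsz : PolyTime (fun x : List Bool => size (pad (D x) x.length)) :=
      PolyTime.comp PT_size hpad
    have hlog' : PolyTime (fun x : List Bool => Nat.log 2 (size (pad (D x) x.length))) :=
      Pool.Agent.Helper61.DT.PT_log hsz
    have hfpad : PolyTime (fun x : List Bool => f (pad (D x) x.length)) :=
      PolyTime.comp hfP hpad
    have hdec : PolyTime fun x : List Bool =>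
        decide ((2 * g x + 1) * (Nat.log 2 (size (pad (D x) x.length)) + 2) ^ (c + 2) ≤
          2 * (Nat.log 2 x.length + 2) ^ c * f (pad (D x) x.length)) := by fun_prop
    refine inP_of_PT hdec fun x => ?_
    rw [decide_eq_true_iff]
    obtain ⟨hn, hr⟩ := h0 x
    obtain ⟨l, hl⟩ : ∃ l : ℕ, l = Nat.log 2 x.length + 2 := ⟨_, rfl⟩
    obtain ⟨l', hl'⟩ : ∃ l' : ℕ, l' = Nat.log 2 (size (pad (D x) x.length)) + 2 := ⟨_, rfl⟩
    have hll : l ≤ l' := by
      rw [hl, hl']
      have := Nat.log_mono_right (b := 2) (le_size_pad (D x) x.length)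
      omega
    have hx := hfa (pad (D x) x.length) (narrow_pad hn x.length) (hr.trans (by
      rw [← hl, ← hl']
      exact Nat.pow_le_pow_left hll e))
    have hll' : (l : ℝ) ≤ l' := by exact_mod_cast hll
    have hl2 : (2 : ℝ) ≤ l := by
      have : 2 ≤ l := by omega
      exact_mod_cast this
    have hl2' : (2 : ℝ) ≤ l' := hl2.trans hll'
    rw [cnt_pad] at hx
    rw [← hl'] at hx ⊢
    rw [← hl]
    have e0 : (pad (D x) x.length).1 = (D x).1 := rfl
    rw [e0] at hx
    have hlc : (0 : ℝ) < (l : ℝ) ^ c := by positivity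
    have hm : (0 : ℝ) < (2 : ℝ) ^ (D x).1 := by positivity
    obtain ⟨q, hq⟩ : ∃ q : ℝ, q = (cnt (D x) : ℝ) / 2 ^ (D x).1 := ⟨_, rfl⟩
    obtain ⟨F, hF⟩ : ∃ F : ℕ, F = f (pad (D x) x.length) := ⟨_, rfl⟩
    rw [← hq, ← hF] at hx
    rw [← hF]
    have hL : (0 : ℝ) < (l' : ℝ) ^ (c + 2) := by positivity
    have e1 : (F : ℝ) / (l' : ℝ) ^ (c + 2) * (l' : ℝ) ^ (c + 2) = F := by field_simp
    have e2 : (1 : ℝ) / (l' : ℝ) ^ (c + 2) * (l' : ℝ) ^ (c + 2) = 1 := by field_simp
    rw [abs_le] at hx
    obtain ⟨hx1, hx2⟩ := hx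
    have hx1' := mul_le_mul_of_nonneg_right hx1 hL.le
    have hx2' := mul_le_mul_of_nonneg_right hx2 hL.le
    rw [neg_mul, e2, sub_mul, e1] at hx1'
    rw [e2, sub_mul, e1] at hx2'
    -- `4 * l ^ c ≤ l' ^ (c + 2)`
    have h4 : 4 * (l : ℝ) ^ c ≤ (l' : ℝ) ^ (c + 2) := by
      rw [pow_add]
      have a1 : (l : ℝ) ^ c ≤ (l' : ℝ) ^ c := by gcongr
      have a2 : (4 : ℝ) ≤ (l' : ℝ) ^ 2 := by nlinarith
      calc 4 * (l : ℝ) ^ c = (l : ℝ) ^ c * 4 := by ring
        _ ≤ (l' : ℝ) ^ c * (l' : ℝ) ^ 2 := mul_le_mul a1 a2 (by norm_num) (by positivity)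
    constructor
    · intro hxL
      have h3 := h1 x hxL
      rw [← hl] at h3
      have h3' : ((g x : ℝ) + 1) * 2 ^ (D x).1 ≤ (l : ℝ) ^ c * cnt (D x) := by exact_mod_cast h3
      have h5 : (g x : ℝ) + 1 ≤ (l : ℝ) ^ c * q := by
        rw [hq, ← mul_div_assoc]
        exact (le_div_iff₀ hm).2 h3'
      have h6 : ((g x : ℝ) + 1) * (l' : ℝ) ^ (c + 2) ≤ (l : ℝ) ^ c * (q * (l' : ℝ) ^ (c + 2)) := by
        rw [← mul_assoc]
        exact mul_le_mul_of_nonneg_right h5 hL.le
      have h7 : (l : ℝ) ^ c * (q * (l' : ℝ) ^ (c + 2)) ≤ (l : ℝ) ^ c * (F + 1) :=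
        mul_le_mul_of_nonneg_left (by linarith) hlc.le
      have h8 : (2 * (g x : ℝ) + 1) * (l' : ℝ) ^ (c + 2) ≤ 2 * (l : ℝ) ^ c * F := by nlinarith
      exact_mod_cast h8
    · intro hd
      by_contra hxL
      have h3 := h2 x hxL
      rw [← hl] at h3
      have h3' : (l : ℝ) ^ c * cnt (D x) ≤ (g x : ℝ) * 2 ^ (D x).1 := by exact_mod_cast h3
      have h5 : (l : ℝ) ^ c * q ≤ (g x : ℝ) := by
        rw [hq, ← mul_div_assoc]
        exact (div_le_iff₀ hm).2 h3'
      have h6 : (l : ℝ) ^ c * (q * (l' : ℝ) ^ (c + 2)) ≤ (g x : ℝ) * (l' : ℝ) ^ (c + 2) := by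
        rw [← mul_assoc]
        exact mul_le_mul_of_nonneg_right h5 hL.le
      have h7 : (l : ℝ) ^ c * (F - 1) ≤ (l : ℝ) ^ c * (q * (l' : ℝ) ^ (c + 2)) :=
        mul_le_mul_of_nonneg_left (by linarith) hlc.le
      have h8 : (2 * (g x : ℝ) + 1) * (l' : ℝ) ^ (c + 2) ≤ 2 * (l : ℝ) ^ c * F := by
        exact_mod_cast hd
      nlinarith

end Pool.Agent.Helper55.JT
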